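import Pool.Agent.Lib.MP_af711c_co.Count

/-!
# The number of visibility graphs of simple polygons with `n` vertices is `2 ^ Ω(n log n)`
-/

namespace Pool.Agent.Results.MP_af711c_co.LowerBound

open Pool.Agent.Lib.MP_af711c_co Filter

/-- For every `n ≥ 10` and `m = (n - 1) / 9` there are at least `m ^ m / 4 ^ n` isomorphism
classes. -/
lemma finite_bound (n : ℕ) (hn : 10 ≤ n) :
    ((n - 1) / 9) ^ ((n - 1) / 9) ≤ numVisibilityGraphs n * 4 ^ n := by
  set m := (n - 1) / 9 with hm
  have hm1 : 1 ≤ m := by omega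
  have hT : 4 * m + 2 * m ≤ n - 1 - 3 * m := by omega
  have h := pow_le (m := m) (M := m) (T := n - 1 - 3 * m) hm1 hm1 hT
  have hn' : n - 1 - 3 * m + (3 * m + 1) = n := by omega
  rw [hn'] at h
  exact h

/-- The number `N(n)` of isomorphism classes of visibility graphs of simple polygons with `n`
vertices satisfies `log₂ N(n) ≥ (1/10) n log₂ n` for all sufficiently large `n`. -/
theorem result : ∀ᶠ n : ℕ in atTop,
    (1 / 10 : ℝ) * ((n : ℝ) * Real.logb 2 (n : ℝ)) ≤
      Real.logb 2 (numVisibilityGraphs n : ℝ) := by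
  have hev : ∀ᶠ n : ℕ in atTop, (436 : ℝ) ≤ Real.logb 2 (n : ℝ) :=
    ((Real.tendsto_logb_atTop (by norm_num : (1 : ℝ) < 2)).comp
      tendsto_natCast_atTop_atTop).eventually_ge_atTop 436
  filter_upwards [eventually_ge_atTop 180, hev] with n h180 hL
  set m := (n - 1) / 9 with hm
  have hm1 : 1 ≤ m := by omega
  have hmn : n ≤ 9 * m + 9 := by omega
  have hb := finite_bound n (by omega)
  rw [← hm] at hb
  -- real versions
  have hnpos : (0 : ℝ) < n := by
    have : 0 < n := by omega
    exact_mod_cast this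
  have hmR : (19 / 180 : ℝ) * n ≤ m := by
    have h1 : (n : ℝ) ≤ 9 * m + 9 := by exact_mod_cast hmn
    have h2 : (180 : ℝ) ≤ n := by exact_mod_cast h180
    linarith
  have hmpos : (0 : ℝ) < m := by exact_mod_cast hm1
  have hlogm : Real.logb 2 n - 4 ≤ Real.logb 2 m := by
    have h1 : Real.logb 2 n - 4 = Real.logb 2 ((n : ℝ) / 16) := by
      rw [Real.logb_div hnpos.ne' (by norm_num)]
      have : Real.logb 2 (16 : ℝ) = 4 := by
        rw [show (16 : ℝ) = 2 ^ (4 : ℕ) by norm_num, Real.logb_pow]
        simp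
      rw [this]
    rw [h1]
    apply Real.logb_le_logb_of_le (by norm_num) (by positivity)
    linarith
  have hN : (0 : ℝ) < numVisibilityGraphs n := by
    have : 0 < numVisibilityGraphs n := by
      rcases Nat.eq_zero_or_pos (numVisibilityGraphs n) with h | h
      · rw [h, zero_mul] at hb
        have := Nat.pow_pos (n := m) (show 0 < m by omega)
        omega
      · exact h
    exact_mod_cast this
  have hlog : (m : ℝ) * Real.logb 2 m ≤ Real.logb 2 (numVisibilityGraphs n : ℝ) + 2 * n := by
    have h1 : ((m : ℝ) ^ m) ≤ (numVisibilityGraphs n : ℝ) * 4 ^ n := by exact_mod_cast hb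
    have h2 := Real.logb_le_logb_of_le (b := 2) (by norm_num) (by positivity) h1
    rw [Real.logb_pow, Real.logb_mul hN.ne' (by positivity), Real.logb_pow] at h2
    have h3 : Real.logb 2 (4 : ℝ) = 2 := by
      rw [show (4 : ℝ) = 2 ^ (2 : ℕ) by norm_num, Real.logb_pow]
      simp
    rw [h3] at h2
    linarith
  have hm2 : (19 / 180 : ℝ) * n * (Real.logb 2 n - 4) ≤ m * Real.logb 2 m := by
    apply mul_le_mul hmR hlogm (by linarith) hmpos.le
  nlinarith [mul_nonneg hnpos.le (sub_nonneg.2 hL)]

end Pool.Agent.Results.MP_af711c_co.LowerBound
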